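import Pool.Agent.Helper70.ML.St3

set_option autoImplicit false

namespace Pool.Agent.Helper40.ML

open Pool.Agent.Helper70.ML Pool.Agent.Helper75.MX

theorem hPUDC : StPUDC := by
  intro n F _ E _ _ φ X hX r s hrs
  have hlt : r < s := by
    rw [Fin.lt_def]; omega
  have hne : r ≠ s := ne_of_lt hlt
  have h0 : X r s 0 = 1 := by
    have h := hX.add r s 0 0 hne
    rw [add_zero] at h
    exact mul_eq_left.mp h
  have hinv : ∀ b, (X r s b)⁻¹ = X r s (-b) := fun b => (hX.neg r s b hne).symm
  have hgen : ∀ (k l : Fin n) (a : F), k < l → ¬ (k = r ∧ l = s) → X k l a ∈ Upx X r s :=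
    fun k l a hkl hn => Subgroup.subset_closure ⟨k, l, a, hkl, hn, rfl⟩
  -- (N)
  have hN : ∀ (b : F) (y : E), y ∈ Upx X r s → (X r s b)⁻¹ * y * X r s b ∈ Upx X r s := by
    intro b y hy
    unfold Upx at hy
    induction hy using Subgroup.closure_induction with
    | mem y hy =>
      obtain ⟨k, l, a, hkl, hn, rfl⟩ := hy
      have hkl' : k ≠ l := ne_of_lt hkl
      by_cases hlr : l = r
      · subst hlr
        have hks : k < s := lt_trans hkl hlt
        have h1 := hX.cmm k l s a b hkl' hne (ne_of_lt hks)
        have h2 := hX.com k s l s (a * b) b (ne_of_lt hks) hne (ne_of_gt hlt) (ne_of_lt hks)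
        have h3 : X k l a * X l s b = X k s (a * b) * X l s b * X k l a := by
          rw [← h1]; group
        have h4 : (X l s b)⁻¹ * X k l a * X l s b = X k s (a * b) * X k l a := by
          rw [mul_assoc, h3, h2]; group
        rw [h4]
        refine mul_mem (hgen k s (a * b) hks (fun h => ?_)) (hgen k l a hkl (fun h => ?_))
        · exact hkl' h.1
        · exact hkl' h.1
      · by_cases hksq : k = s
        · subst hksq
          have hrl : r < l := lt_trans hlt hkl
          have h1 := hX.cmm r k l b a hne hkl' (ne_of_lt hrl)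
          have h2 := hX.com r l r k (b * a) b (ne_of_lt hrl) hne (ne_of_gt hrl) hne
          have h3 : X r k b * X k l a = X r l (b * a) * X k l a * X r k b := by
            rw [← h1]; group
          have h4 : (X r k b)⁻¹ * X k l a * X r k b = (X r l (b * a))⁻¹ * X k l a := by
            have h5 : X k l a * X r k b = (X r l (b * a))⁻¹ * (X r k b * X k l a) := by
              rw [h3]; group
            have h6 : (X r l (b * a))⁻¹ * X r k b = X r k b * (X r l (b * a))⁻¹ := by
              rw [inv_mul_eq_iff_eq_mul, ← mul_assoc, h2]; group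
            rw [mul_assoc, h5, ← mul_assoc (X r l (b * a))⁻¹, h6]; group
          rw [h4]
          refine mul_mem (inv_mem (hgen r l (b * a) hrl (fun h => ?_))) (hgen k l a hkl (fun h => ?_))
          · exact hkl' h.2.symm
          · exact hkl' h.2.symm
        · have h1 := hX.com k l r s a b hkl' hne hlr hksq
          have h4 : (X r s b)⁻¹ * X k l a * X r s b = X k l a := by
            rw [mul_assoc, h1]; group
          rw [h4]
          exact hgen k l a hkl hn
    | one => simp
    | mul x y _ _ hx hy =>
      have : (X r s b)⁻¹ * (x * y) * X r s b =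
          ((X r s b)⁻¹ * x * X r s b) * ((X r s b)⁻¹ * y * X r s b) := by group
      rw [this]
      exact mul_mem hx hy
    | inv x _ hx =>
      have : (X r s b)⁻¹ * x⁻¹ * X r s b = ((X r s b)⁻¹ * x * X r s b)⁻¹ := by group
      rw [this]
      exact inv_mem hx
  intro v hv
  unfold Up at hv
  induction hv using Subgroup.closure_induction with
  | mem v hv =>
    obtain ⟨i, j, a, hij, rfl⟩ := hv
    by_cases h : i = r ∧ j = s
    · obtain ⟨rfl, rfl⟩ := h
      exact ⟨a, 1, one_mem _, (mul_one _).symm⟩
    · exact ⟨0, X i j a, hgen i j a hij h, by rw [h0, one_mul]⟩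
  | one => exact ⟨0, 1, one_mem _, by rw [h0, one_mul]⟩
  | mul x y _ _ hx hy =>
    obtain ⟨b, u, hu, rfl⟩ := hx
    obtain ⟨c, w, hw, rfl⟩ := hy
    refine ⟨b + c, ((X r s c)⁻¹ * u * X r s c) * w, mul_mem (hN c u hu) hw, ?_⟩
    rw [← hX.add r s b c hne]; group
  | inv x _ hx =>
    obtain ⟨b, u, hu, rfl⟩ := hx
    refine ⟨-b, (X r s (-b))⁻¹ * u⁻¹ * X r s (-b), hN (-b) u⁻¹ (inv_mem hu), ?_⟩
    rw [mul_inv_rev, hinv b]; group

end Pool.Agent.Helper40.ML
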